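import Pool.Agent.Y648.WT.Run

set_option autoImplicit false

/-!
# Divergence for weakness sequences which tend to zero
-/

namespace Pool.Agent.Y648.WT

open Filter Topology Pool.Agent.Helper983.WC
open scoped ENNReal

/-- The vector with the coordinates `(1/2)^(i+1)`. -/
noncomputable def vv (k : ℕ) : E k := WithLp.toLp _ fun i => (1 / 2 : ℝ) ^ ((i : ℕ) + 1)

theorem vv_apply (k : ℕ) (i : Fin (k + 1)) : vv k i = (1 / 2 : ℝ) ^ ((i : ℕ) + 1) := rfl

theorem sum_half (n : ℕ) : ∑ i ∈ Finset.range n, (1 / 2 : ℝ) ^ (i + 1) = 1 - (1 / 2) ^ n := by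
  induction n with
  | zero => simp
  | succ n ih => rw [Finset.sum_range_succ, ih]; ring

theorem norm_vv_le (k : ℕ) : ‖vv k‖ ≤ 1 := by
  have h1 : ‖vv k‖ ^ (qe k).toReal ≤ 1 := by
    rw [norm_rpow_eq (one_lt_toReal k)]
    calc ∑ i, |vv k i| ^ (qe k).toReal ≤ ∑ i : Fin (k + 1), (1 / 2 : ℝ) ^ ((i : ℕ) + 1) := by
          refine Finset.sum_le_sum fun i _ => ?_
          rw [vv_apply, abs_of_pos (by positivity)]
          have h2 : (1 / 2 : ℝ) ^ ((i : ℕ) + 1) ≤ 1 := pow_le_one₀ (by norm_num) (by norm_num)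
          have h3 := Real.rpow_le_rpow_of_exponent_ge (by positivity) h2 (one_lt_toReal k).le
          rwa [Real.rpow_one] at h3
      _ = ∑ i ∈ Finset.range (k + 1), (1 / 2 : ℝ) ^ (i + 1) :=
          Fin.sum_univ_eq_sum_range (fun i => (1 / 2 : ℝ) ^ (i + 1)) (k + 1)
      _ ≤ 1 := by
          rw [sum_half]
          have : (0 : ℝ) ≤ (1 / 2) ^ (k + 1) := by positivity
          linarith
  by_contra hcon
  push Not at hcon
  have := Real.one_lt_rpow hcon (show 0 < (qe k).toReal by have := one_lt_toReal k; linarith)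
  linarith

theorem rpow_half_ge (k : ℕ) (i : Fin (k + 1)) {β : ℝ} (hβ : (1 / 2 : ℝ) ^ ((i : ℕ) + 1) ≤ β) :
    1 / 2 ≤ β ^ ((qe k).toReal - 1) := by
  have h0 : 0 ≤ (qe k).toReal - 1 := by have := one_lt_toReal k; linarith
  refine le_trans ?_ (Real.rpow_le_rpow (by positivity) hβ h0)
  rw [← Real.rpow_natCast, ← Real.rpow_mul (by norm_num)]
  have h1 : (((i : ℕ) + 1 : ℕ) : ℝ) * ((qe k).toReal - 1) ≤ 1 := by
    rw [toReal_qe, qr, add_sub_cancel_left, mul_one_div, div_le_one (by positivity)]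
    have : (i : ℕ) ≤ k := Nat.lt_succ_iff.1 i.2
    have : ((i : ℕ) : ℝ) ≤ k := by exact_mod_cast this
    push_cast
    linarith
  have h2 := Real.rpow_le_rpow_of_exponent_ge (x := (1 / 2 : ℝ)) (by norm_num) (by norm_num) h1
  rwa [Real.rpow_one] at h2

/-- The main estimate. -/
theorem norming_bs_ge {r : X0} (hr : ‖r‖ ≤ 1) {F : X0 →L[ℝ] ℝ} (hF : IsNorming F r) {k : ℕ}
    {i : Fin (k + 1)} {w : ℝ} (hw : 0 < w) (hN : ‖r k‖ ≤ w) (hN2 : w / 2 ≤ ‖r k‖)
    (hb : r k i = w * (1 / 2) ^ ((i : ℕ) + 1)) : w / 16 ≤ F (bs k i) := by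
  set u := r k with hu
  set b := u i with hbdef
  have hb0 : 0 < b := by rw [hb]; positivity
  have hNpos : 0 < ‖u‖ := by linarith
  have hβ : (1 / 2 : ℝ) ^ ((i : ℕ) + 1) ≤ b / ‖u‖ := by
    rw [le_div_iff₀ hNpos, hb, mul_comm w]
    exact mul_le_mul_of_nonneg_left hN (by positivity)
  have h1 := rpow_half_ge k i hβ
  have h2 := drop_bound (one_lt_toReal k) (by rw [toReal_qe]; exact qr_le_two k) hb0
  set N' := ‖u - b • PiLp.single (qe k) i (1 : ℝ)‖ with hN'
  have h3 : b / 4 ≤ ‖u‖ - N' := by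
    have : 1 / 2 * b ≤ (b / ‖u‖) ^ ((qe k).toReal - 1) * b := mul_le_mul_of_nonneg_right h1 hb0.le
    linarith
  have hN'0 : 0 ≤ N' := norm_nonneg _
  have e1 : r + lp.single 2 k (-(b • PiLp.single (qe k) i (1 : ℝ))) = r - b • bs k i := by
    rw [lp.single_neg, lp.single_smul, ← sub_eq_add_neg]
    rfl
  have e2 := norm_sq_add_single r k (-(b • PiLp.single (qe k) i (1 : ℝ)))
  rw [e1, ← hu, ← sub_eq_add_neg, ← hN'] at e2
  have h4 := apply_le_norm hF.1.le (r - b • bs k i)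
  rw [map_sub, hF.2, map_smul, smul_eq_mul] at h4
  set R := ‖r‖ with hR
  set R' := ‖r - b • bs k i‖ with hR'
  have hR0 : 0 ≤ R := norm_nonneg _
  have hR'0 : 0 ≤ R' := norm_nonneg _
  have h5 : b * w / 8 ≤ R ^ 2 - R' ^ 2 := by
    have h6 : R ^ 2 - R' ^ 2 = (‖u‖ - N') * (‖u‖ + N') := by rw [e2]; ring
    rw [h6]
    have h7 : b / 4 * (w / 2) ≤ (‖u‖ - N') * (‖u‖ + N') :=
      mul_le_mul h3 (by linarith) (by positivity) (by linarith)
    linarith
  have h8 : R' ≤ R := by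
    refine (sq_le_sq₀ hR'0 hR0).1 ?_
    have : 0 < b * w := mul_pos hb0 hw
    linarith
  have h9 : R ^ 2 - R' ^ 2 ≤ 2 * (R - R') := by nlinarith
  have h10 : b * (w / 16) ≤ b * F (bs k i) := by linarith
  exact le_of_mul_le_mul_left h10 hb0

theorem exists_times {τ : ℕ → ℝ} (h : Tendsto τ atTop (𝓝 0)) : ∃ K : ℕ → ℕ, StrictMono K ∧
    1 ≤ K 0 ∧ ∀ j, ∀ m, K j ≤ m → 16 * τ m ≤ (1 / 2) ^ (j + 2) := by
  have h1 : ∀ j : ℕ, ∀ᶠ k in atTop, 1 ≤ k ∧ ∀ m, k ≤ m → 16 * τ m ≤ (1 / 2 : ℝ) ^ (j + 2) := by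
    intro j
    have h2 : ∀ᶠ m in atTop, 16 * τ m ≤ (1 / 2 : ℝ) ^ (j + 2) := by
      have h3 : Tendsto (fun m => 16 * τ m) atTop (𝓝 0) := by
        have := h.const_mul 16
        rwa [mul_zero] at this
      exact h3.eventually_le_const (by positivity)
    exact (eventually_ge_atTop 1).and (eventually_forall_ge_atTop.2 h2)
  obtain ⟨K, hK, hP⟩ := extraction_forall_of_eventually h1
  exact ⟨K, hK, (hP 0).1, fun j => (hP j).2⟩

/-- **Divergence in `X0` for all weakness sequences which tend to zero.** -/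
theorem diverges {τ : ℕ → ℝ} (h1 : ∀ m, τ m ≤ 1) (h : Tendsto τ atTop (𝓝 0)) :
    ¬ Conv τ X0 := by
  obtain ⟨K, hK, hK0, hKτ⟩ := exists_times h
  -- the weights
  set w : ℕ → ℝ := Function.extend K (fun j => (1 / 2 : ℝ) ^ (j + 1)) 0 with hwdef
  have hwK : ∀ j, w (K j) = (1 / 2 : ℝ) ^ (j + 1) := fun j => hK.injective.extend_apply _ _ j
  have hwn : ∀ k, k ∉ Set.range K → w k = 0 := by
    intro k hk
    rw [hwdef, Function.extend_apply' _ _ _ (fun ⟨j, hj⟩ => hk ⟨j, hj⟩)]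
    rfl
  have hw0 : ∀ k, 0 ≤ w k := by
    intro k
    by_cases hk : k ∈ Set.range K
    · obtain ⟨j, rfl⟩ := hk
      rw [hwK]; positivity
    · rw [hwn k hk]
  have hw1 : ∀ k, w k ≤ 1 := by
    intro k
    by_cases hk : k ∈ Set.range K
    · obtain ⟨j, rfl⟩ := hk
      rw [hwK]
      exact pow_le_one₀ (by norm_num) (by norm_num)
    · rw [hwn k hk]; norm_num
  have hgeo : HasSum (fun j : ℕ => (1 / 2 : ℝ) ^ (j + 1)) 1 := by
    have := (hasSum_geometric_two).mul_left (1 / 2 : ℝ)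
    simp only [← pow_succ'] at this
    rwa [show (1 / 2 : ℝ) * 2 = 1 by norm_num] at this
  have hws : HasSum w 1 := by
    rw [← hK.injective.hasSum_iff hwn]
    have e : w ∘ K = fun j : ℕ => (1 / 2 : ℝ) ^ (j + 1) := funext hwK
    rw [e]
    exact hgeo
  set k0 := K 0 with hk0
  -- the vector
  set fk : ∀ k, E k := fun k => if k < k0 then PiLp.single (qe k) 0 1 else w k • vv k with hfk
  have hf1 : ∀ k, k < k0 → fk k = PiLp.single (qe k) 0 1 := fun k hk => by
    rw [hfk]; exact if_pos hk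
  have hf2 : ∀ k, k0 ≤ k → fk k = w k • vv k := fun k hk => by
    rw [hfk]; exact if_neg (not_lt.2 hk)
  have hnf1 : ∀ k, k < k0 → ‖fk k‖ = 1 := fun k hk => by
    rw [hf1 k hk, PiLp.norm_single, norm_one]
  have hnf2 : ∀ k, k0 ≤ k → ‖fk k‖ ≤ w k := fun k hk => by
    rw [hf2 k hk, norm_smul, Real.norm_of_nonneg (hw0 k)]
    exact mul_le_of_le_one_right (hw0 k) (norm_vv_le k)
  have hmem : Memℓp fk 2 := by
    refine memℓp_gen ?_
    simp only [toReal_two, Real.rpow_two]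
    refine (summable_nat_add_iff k0).1 ?_
    refine Summable.of_nonneg_of_le (fun k => by positivity) (fun k => ?_)
      ((summable_nat_add_iff k0).2 hws.summable)
    have h2 := hnf2 (k + k0) (Nat.le_add_left _ _)
    have h3 := hw1 (k + k0)
    have h4 := norm_nonneg (fk (k + k0))
    nlinarith
  set f : X0 := ⟨fk, hmem⟩ with hf
  have hfa : ∀ k, f k = fk k := fun k => rfl
  -- the schedule
  have hsel : ∀ m, ∃ k, (m < k0 → k = m) ∧ (k0 ≤ m → m < k ∧ 16 * τ m ≤ w k ∧ 0 < w k) := by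
    intro m
    by_cases hm : m < k0
    · exact ⟨m, fun _ => rfl, fun h => absurd hm (not_lt.2 h)⟩
    · push Not at hm
      -- the last `j` with `K j ≤ m`
      have hex : ∃ j, m < K (j + 1) := ⟨m, lt_of_lt_of_le (Nat.lt_succ_self m) (hK.le_apply)⟩
      classical
      set j := Nat.find hex with hj
      have hj1 : m < K (j + 1) := Nat.find_spec hex
      have hj2 : K j ≤ m := by
        rcases Nat.eq_zero_or_pos j with h0 | h0
        · rw [h0]; exact hm
        · obtain ⟨i, hi⟩ := Nat.exists_eq_succ_of_ne_zero h0.ne'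
          have h3 := Nat.find_min hex (m := i) (by rw [← hj, hi]; exact Nat.lt_succ_self i)
          push Not at h3
          rw [hi]; exact h3
      refine ⟨K (j + 1), fun h => absurd h (not_lt.2 hm), fun _ => ⟨hj1, ?_, ?_⟩⟩
      · rw [hwK]; exact hKτ j m hj2
      · rw [hwK]; positivity
  choose κ hκ1 hκ2 using hsel
  have hιlt : ∀ m, (if m < k0 then 0 else m) < κ m + 1 := by
    intro m
    by_cases hm : m < k0
    · rw [if_pos hm]; exact Nat.succ_pos _
    · rw [if_neg hm]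
      exact (hκ2 m (not_lt.1 hm)).1.trans (Nat.lt_succ_self _)
  set ι : ∀ m, Fin (κ m + 1) := fun m => ⟨if m < k0 then 0 else m, hιlt m⟩ with hι
  have hι1 : ∀ m, m < k0 → (ι m : ℕ) = 0 := fun m hm => if_pos hm
  have hι2 : ∀ m, k0 ≤ m → (ι m : ℕ) = m := fun m hm => if_neg (not_lt.2 hm)
  -- coordinates which are not chosen
  have hz : ∀ m k, k0 ≤ k → (0 : Fin (k + 1)) ∉ chosen κ ι m k := by
    rintro m k hk ⟨l, -, h2, h3⟩
    rcases lt_or_ge l k0 with hl | hl
    · rw [hκ1 l hl] at h2; omega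
    · rw [hι2 l hl] at h3
      have : ((0 : Fin (k + 1)) : ℕ) = 0 := rfl
      omega
  have hz2 : ∀ m, m < k0 → (0 : Fin (m + 1)) ∉ chosen κ ι m m := by
    rintro m hm ⟨l, hl, h2, -⟩
    rw [hκ1 l (hl.trans hm)] at h2; omega
  have hz3 : ∀ m, k0 ≤ m → ι m ∉ chosen κ ι m (κ m) := by
    rintro m hm ⟨l, hl, h2, h3⟩
    rcases lt_or_ge l k0 with hl' | hl'
    · rw [hκ1 l hl'] at h2
      have := (hκ2 m hm).1
      omega
    · rw [hι2 l hl', hι2 m hm] at h3; omega
  have hz4 : ∀ m k, k0 ≤ m → k < k0 → (0 : Fin (k + 1)) ∈ chosen κ ι m k := by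
    intro m k hm hk
    exact ⟨k, hk.trans_le hm, hκ1 k hk, by rw [hι1 k hk]; rfl⟩
  -- norms of the components of the residuals
  have hcle : ∀ m k, ‖cut (chosen κ ι m) f k‖ ≤ ‖fk k‖ := fun m k =>
    norm_cutE_le (one_lt_toReal k) _ _
  have hle1 : ∀ m k, ‖cut (chosen κ ι m) f k‖ ≤ 1 := by
    intro m k
    refine (hcle m k).trans ?_
    rcases lt_or_ge k k0 with hk | hk
    · exact (hnf1 k hk).le
    · exact (hnf2 k hk).trans (hw1 k)
  have hcz : ∀ m k, k0 ≤ m → k < k0 → cut (chosen κ ι m) f k = 0 := by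
    intro m k hm hk
    rw [cut_apply, hfa, hf1 k hk]
    ext i
    by_cases hi : i ∈ chosen κ ι m k
    · rw [cutE_apply_mem hi]; rfl
    · rw [cutE_apply_not_mem hi]
      have hne : i ≠ 0 := by rintro rfl; exact hi (hz4 m k hm hk)
      simp [hne]
  have hr1 : ∀ m, k0 ≤ m → ‖cut (chosen κ ι m) f‖ ≤ 1 := by
    intro m hm
    have h2 : ‖cut (chosen κ ι m) f‖ ^ 2 ≤ 1 := by
      refine hasSum_le (fun k => ?_) (hasSum_sq (cut (chosen κ ι m) f)) hws
      rcases lt_or_ge k k0 with hk | hk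
      · rw [hcz m k hm hk]
        simpa using hw0 k
      · have h3 := (hcle m k).trans (hnf2 k hk)
        have h4 := hw1 k
        have h5 := norm_nonneg (cut (chosen κ ι m) f k)
        nlinarith
    have h3 := norm_nonneg (cut (chosen κ ι m) f)
    nlinarith
  have hcoord : ∀ m k (i : Fin (k + 1)), k0 ≤ k → i ∉ chosen κ ι m k →
      cut (chosen κ ι m) f k i = w k * (1 / 2) ^ ((i : ℕ) + 1) := by
    intro m k i hk hi
    rw [cut_apply, cutE_apply_not_mem hi, hfa, hf2 k hk, PiLp.smul_apply, vv_apply, smul_eq_mul]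
  have hlow : ∀ m k, k0 ≤ k → w k / 2 ≤ ‖cut (chosen κ ι m) f k‖ := by
    intro m k hk
    have h2 := abs_coord_le (cut (chosen κ ι m) f k) 0
    rw [hcoord m k 0 hk (hz m k hk)] at h2
    refine le_trans ?_ h2
    refine le_trans (le_of_eq ?_) (le_abs_self _)
    simp
    ring
  have hlow2 : ∀ m, 1 / 4 ≤ ‖cut (chosen κ ι m) f‖ := by
    intro m
    refine le_trans ?_ (norm_apply_le _ k0)
    refine le_trans (le_of_eq ?_) (hlow m k0 le_rfl)
    rw [hk0, hwK]; norm_num
  have hne : ∀ m, cut (chosen κ ι m) f ≠ 0 := by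
    intro m hm
    have := hlow2 m
    rw [hm, norm_zero] at this
    norm_num at this
  obtain ⟨F, φ, hrun⟩ := exists_run τ κ ι f hne (by
    rintro m F hF g ⟨k, i, rfl⟩
    rcases lt_or_ge m k0 with hm | hm
    · -- the first steps
      set r := cut (chosen κ ι m) f with hr
      have hpos : 0 < ‖r‖ := norm_pos_iff.2 (hne m)
      have e1 : r m = PiLp.single (qe m) 0 1 := by
        rw [hr, cut_apply, hfa, hf1 m hm]
        ext j
        by_cases hj : j ∈ chosen κ ι m m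
        · rw [cutE_apply_mem hj]
          have hne0 : j ≠ 0 := by rintro rfl; exact hz2 m hm hj
          simp [hne0]
        · rw [cutE_apply_not_mem hj]
      have e2 : bs (κ m) (ι m) = lp.single 2 m (r m) := by
        have e3 : ∀ (k : ℕ) (i : Fin (k + 1)), k = m → (i : ℕ) = 0 →
            bs k i = lp.single 2 m (r m) := by
          rintro k i rfl hi
          rw [e1, bs]
          congr 2
          exact Fin.ext hi
        exact e3 _ _ (hκ1 m hm) (hι1 m hm)
      have e4 := norming_eq hF m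
      have e5 : ‖r m‖ = 1 := by rw [e1, PiLp.norm_single, norm_one]
      rw [e5, ← e2] at e4
      have e6 := abs_norming_le hF k (PiLp.single (qe k) i 1)
      rw [PiLp.norm_single, norm_one, mul_one] at e6
      have e7 : ‖r‖ * |F (bs k i)| ≤ ‖r‖ * F (bs (κ m) (ι m)) := by
        rw [e4, one_pow]
        exact e6.trans (hle1 m k)
      have e8 : |F (bs k i)| ≤ F (bs (κ m) (ι m)) := le_of_mul_le_mul_left e7 hpos
      have e9 : τ m * |F (bs k i)| ≤ 1 * |F (bs k i)| :=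
        mul_le_mul_of_nonneg_right (h1 m) (abs_nonneg _)
      rw [one_mul] at e9
      exact e9.trans (e8.trans (le_abs_self _))
    · -- the other steps
      obtain ⟨hk1, hk2, hk3⟩ := hκ2 m hm
      have hkk : k0 ≤ κ m := hm.trans hk1.le
      have h2 := norming_bs_ge (hr1 m hm) hF hk3 ((hcle m (κ m)).trans (hnf2 _ hkk))
        (hlow m (κ m) hkk) (hcoord m (κ m) (ι m) hkk (hz3 m hm))
      have h3 : |F (bs k i)| ≤ 1 := by
        have := abs_le_norm hF.1.le (bs k i)
        rwa [norm_bs] at this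
      have h4 : τ m ≤ w (κ m) / 16 := by linarith
      rcases le_or_gt (τ m) 0 with h5 | h5
      · refine le_trans ?_ (abs_nonneg _)
        exact mul_nonpos_of_nonpos_of_nonneg h5 (abs_nonneg _)
      · calc τ m * |F (bs k i)| ≤ τ m * 1 := mul_le_mul_of_nonneg_left h3 h5.le
          _ ≤ F (bs (κ m) (ι m)) := by linarith
          _ ≤ _ := le_abs_self _)
  intro hconv
  have h2 := hconv D0 isDictionary_D0 f _ F φ hrun
  have h3 := ge_of_tendsto' h2 hlow2
  norm_num at h3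

end Pool.Agent.Y648.WT
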