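import Pool.Agent.Y648.WT.L2

set_option autoImplicit false

/-!
# The Kadec-Klee property of the dual of a square sum of finite-dimensional spaces
-/

namespace Pool.Agent.Y648.WT

open Filter Topology Pool.Agent.Helper983.WC
open scoped ENNReal

section Fin

variable {V : Type} [NormedAddCommGroup V] [NormedSpace ℝ V] [FiniteDimensional ℝ V]

/-- Pointwise convergence of functionals on a finite-dimensional space. -/
theorem tendsto_norm_of_fin (F : V →L[ℝ] ℝ) (G : ℕ → V →L[ℝ] ℝ)
    (h : ∀ v, Tendsto (fun n => G n v) atTop (𝓝 (F v))) :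
    Tendsto (fun n => ‖G n - F‖) atTop (𝓝 0) := by
  obtain ⟨C, hC, hb⟩ := (Module.finBasis ℝ V).exists_opNorm_le (F := ℝ)
  have h1 : Tendsto (fun n => ∑ i, |G n (Module.finBasis ℝ V i) - F (Module.finBasis ℝ V i)|)
      atTop (𝓝 0) := by
    have : (0 : ℝ) = ∑ i : Fin (Module.finrank ℝ V), |(0 : ℝ)| := by simp
    rw [this]
    refine tendsto_finsetSum _ fun i _ => ?_
    refine Tendsto.abs ?_
    have h2 := (h (Module.finBasis ℝ V i)).sub_const (F (Module.finBasis ℝ V i))
    rwa [sub_self] at h2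
  refine squeeze_zero (fun n => norm_nonneg _) (fun n => ?_) (by simpa using h1.const_mul C)
  refine hb (Finset.sum_nonneg fun i _ => abs_nonneg _) fun i => ?_
  rw [sub_apply, Real.norm_eq_abs]
  exact Finset.single_le_sum (f := fun i => |G n (Module.finBasis ℝ V i) -
    F (Module.finBasis ℝ V i)|) (fun j _ => abs_nonneg _) (Finset.mem_univ i)

end Fin

variable {E : ℕ → Type} [∀ k, NormedAddCommGroup (E k)] [∀ k, NormedSpace ℝ (E k)]

theorem proj_apply (K : ℕ) (x : lp E 2) :
    proj E K x = ∑ k ∈ Finset.range K, lp.single 2 k (x k) := by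
  rw [proj, sum_apply]
  rfl

theorem tendsto_proj (x : lp E 2) : Tendsto (fun K => proj E K x) atTop (𝓝 x) := by
  simp only [proj_apply]
  exact (lp.hasSum_single (by simp) x).tendsto_sum_nat

theorem pythagoras (K : ℕ) (x y : lp E 2) :
    ‖proj E K x + (y - proj E K y)‖ ^ 2 = ‖proj E K x‖ ^ 2 + ‖y - proj E K y‖ ^ 2 := by
  set z := proj E K x + (y - proj E K y) with hz
  have hc : ∀ (w : lp E 2) (i : ℕ), i < K → (proj E K w) i = w i := by
    intro w i hi
    rw [proj_apply, lp.coeFn_sum, Finset.sum_apply]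
    simp only [lp.coeFn_single, Finset.sum_pi_single, Finset.mem_range, hi, if_true]
  have hzi : ∀ i < K, z i = x i := by
    intro i hi
    rw [hz, lp.coeFn_add, Pi.add_apply, lp.coeFn_sub, Pi.sub_apply, hc x i hi, hc y i hi,
      sub_self, add_zero]
  have h1 := norm_sq_compl z (Finset.range K)
  have h2 : ∑ i ∈ Finset.range K, lp.single 2 i (z i) = proj E K x := by
    rw [proj_apply]
    refine Finset.sum_congr rfl fun i hi => ?_
    rw [hzi i (Finset.mem_range.1 hi)]
  have h3 : ∑ i ∈ Finset.range K, ‖z i‖ ^ 2 = ‖proj E K x‖ ^ 2 := by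
    rw [proj_apply, norm_sq_sum]
    refine Finset.sum_congr rfl fun i hi => ?_
    rw [hzi i (Finset.mem_range.1 hi)]
  rw [h2, h3] at h1
  have h4 : z - proj E K x = y - proj E K y := by rw [hz]; abel
  rw [h4] at h1
  linarith

theorem norm_proj_le (K : ℕ) (x : lp E 2) : ‖proj E K x‖ ≤ ‖x‖ := by
  have h := pythagoras K x x
  rw [add_sub_cancel] at h
  refine (sq_le_sq₀ (norm_nonneg _) (norm_nonneg _)).1 ?_
  nlinarith [sq_nonneg ‖x - proj E K x‖]

theorem norm_compl_le (K : ℕ) (x : lp E 2) : ‖x - proj E K x‖ ≤ ‖x‖ := by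
  have h := pythagoras K x x
  rw [add_sub_cancel] at h
  refine (sq_le_sq₀ (norm_nonneg _) (norm_nonneg _)).1 ?_
  nlinarith [sq_nonneg ‖proj E K x‖]

/-- Functionals are small on the complement of a subspace where they are nearly normed. -/
theorem small_on_compl {G : lp E 2 →L[ℝ] ℝ} (hG : ‖G‖ ≤ 1) {K : ℕ} {x : lp E 2} (hx : ‖x‖ ≤ 1)
    {δ : ℝ} (hδ : 0 < δ) (h : 1 - δ ^ 2 ≤ G (proj E K x)) (y : lp E 2) :
    |G (y - proj E K y)| ≤ 2 * δ * ‖y‖ := by
  have key : ∀ y : lp E 2, ‖y‖ ≤ 1 → G (y - proj E K y) ≤ 2 * δ := by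
    intro y hy
    have h1 := apply_le_norm hG (proj E K x + ((δ • y) - proj E K (δ • y)))
    have h2 := pythagoras K x (δ • y)
    have h3 : ‖proj E K x‖ ≤ 1 := (norm_proj_le K x).trans hx
    have h4 : ‖(δ • y) - proj E K (δ • y)‖ ≤ δ := by
      refine (norm_compl_le K _).trans ?_
      rw [norm_smul, Real.norm_of_nonneg hδ.le]
      exact mul_le_of_le_one_right hδ.le hy
    have h5 : ‖proj E K x + ((δ • y) - proj E K (δ • y))‖ ^ 2 ≤ 1 + δ ^ 2 := by
      rw [h2]
      have := pow_le_pow_left₀ (norm_nonneg _) h3 2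
      have := pow_le_pow_left₀ (norm_nonneg _) h4 2
      linarith
    have h6 : ‖proj E K x + ((δ • y) - proj E K (δ • y))‖ ≤ 1 + δ ^ 2 / 2 := by
      refine abs_le_of_sq_le_sq' ?_ (by positivity) |>.2
      nlinarith [sq_nonneg (δ ^ 2)]
    have h7 : G (proj E K x + ((δ • y) - proj E K (δ • y))) =
        G (proj E K x) + δ * G (y - proj E K y) := by
      rw [map_add, map_smul (proj E K), ← smul_sub, map_smul, smul_eq_mul]
    rw [h7] at h1
    have h8 : δ * G (y - proj E K y) ≤ δ * (2 * δ) := by nlinarith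
    exact le_of_mul_le_mul_left h8 hδ
  have hle : ∀ y : lp E 2, G (y - proj E K y) ≤ 2 * δ * ‖y‖ := by
    intro y
    rcases eq_or_ne y 0 with rfl | hy
    · simp
    have hpos : 0 < ‖y‖ := norm_pos_iff.2 hy
    have h1 := key (‖y‖⁻¹ • y) (by
      rw [norm_smul, norm_inv, norm_norm, inv_mul_cancel₀ hpos.ne'])
    rw [map_smul, ← smul_sub, map_smul, smul_eq_mul, inv_mul_le_iff₀ hpos] at h1
    linarith
  rw [abs_le]
  constructor
  · have := hle (-y)
    rw [map_neg, neg_sub_neg, norm_neg] at this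
    have e : G (proj E K y - y) = - G (y - proj E K y) := by rw [← map_neg, neg_sub]
    rw [e] at this
    linarith
  · exact hle y

/-- The dual norm of a square sum of finite-dimensional spaces has the Kadec-Klee property. -/
theorem dualKK_l2 [∀ k, FiniteDimensional ℝ (E k)] : DualKK (lp E 2) := by
  intro F G hF hG hlim
  rw [Metric.tendsto_atTop]
  intro ε hε
  -- choose a vector where `F` is nearly normed
  set δ := min (ε / 16) (1 / 2) with hδ
  have hδ0 : 0 < δ := lt_min (by positivity) (by norm_num)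
  have hδε : δ ≤ ε / 16 := min_le_left _ _
  obtain ⟨x, hx1, hx2⟩ : ∃ x : lp E 2, ‖x‖ ≤ 1 ∧ 1 - δ ^ 2 < F x := by
    obtain ⟨x, h1, h2⟩ := F.exists_lt_apply_of_lt_opNorm (r := 1 - δ ^ 2) (by
      rw [hF]; nlinarith)
    rw [Real.norm_eq_abs] at h2
    rcases abs_cases (F x) with ⟨h, -⟩ | ⟨h, -⟩
    · exact ⟨x, h1.le, by rwa [h] at h2⟩
    · exact ⟨-x, by rw [norm_neg]; exact h1.le, by rw [map_neg]; rwa [h] at h2⟩
  obtain ⟨K, hK⟩ : ∃ K, 1 - δ ^ 2 < F (proj E K x) := by
    have h1 : Tendsto (fun K => F (proj E K x)) atTop (𝓝 (F x)) :=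
      (F.continuous.tendsto x).comp (tendsto_proj x)
    exact (h1.eventually (lt_mem_nhds hx2)).exists
  have hG1 : ∀ᶠ n in atTop, 1 - δ ^ 2 < G n (proj E K x) :=
    (hlim (proj E K x)).eventually (lt_mem_nhds hK)
  -- the first components converge in norm
  have hfin : Tendsto (fun n => ∑ k ∈ Finset.range K,
      ‖(G n).comp (lp.singleContinuousLinearMap ℝ E 2 k) -
        F.comp (lp.singleContinuousLinearMap ℝ E 2 k)‖) atTop (𝓝 0) := by
    have h0 : (0 : ℝ) = ∑ k ∈ Finset.range K, (0 : ℝ) := by simp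
    rw [h0]
    refine tendsto_finsetSum _ fun k _ => ?_
    refine tendsto_norm_of_fin _ _ fun v => ?_
    exact hlim _
  have hfin1 := hfin.eventually (gt_mem_nhds (show (0 : ℝ) < ε / 4 by positivity))
  obtain ⟨N, hN⟩ := eventually_atTop.1 (hG1.and hfin1)
  refine ⟨N, fun n hn => ?_⟩
  obtain ⟨hn1, hn2⟩ := hN n hn
  rw [Real.dist_eq, sub_zero, abs_norm]
  refine lt_of_le_of_lt (ContinuousLinearMap.opNorm_le_bound _ (M := ε / 4 + 4 * δ)
    (by positivity) fun y => ?_) (by linarith)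
  have e1 : (G n - F) y = (G n - F) (proj E K y) + (G n (y - proj E K y) -
      F (y - proj E K y)) := by
    simp only [sub_apply, map_sub]
    ring
  have h1 := small_on_compl (hG n).le hx1 hδ0 hn1.le y
  have h2 := small_on_compl hF.le hx1 hδ0 hK.le y
  have h3 : |(G n - F) (proj E K y)| ≤ ε / 4 * ‖y‖ := by
    rw [proj_apply, map_sum]
    refine (Finset.abs_sum_le_sum_abs _ _).trans ?_
    have h4 : ∀ k ∈ Finset.range K, |(G n - F) (lp.single 2 k (y k))| ≤
        ‖(G n).comp (lp.singleContinuousLinearMap ℝ E 2 k) -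
        F.comp (lp.singleContinuousLinearMap ℝ E 2 k)‖ * ‖y‖ := by
      intro k _
      have h5 := ((G n).comp (lp.singleContinuousLinearMap ℝ E 2 k) -
        F.comp (lp.singleContinuousLinearMap ℝ E 2 k)).le_opNorm (y k)
      refine le_trans ?_ (h5.trans (mul_le_mul_of_nonneg_left (norm_apply_le y k)
        (norm_nonneg _)))
      rw [Real.norm_eq_abs]
      rfl
    refine (Finset.sum_le_sum h4).trans ?_
    rw [← Finset.sum_mul]
    exact mul_le_mul_of_nonneg_right hn2.le (norm_nonneg _)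
  rw [Real.norm_eq_abs, e1]
  refine (abs_add_le _ _).trans ?_
  have h6 : |G n (y - proj E K y) - F (y - proj E K y)| ≤ 4 * δ * ‖y‖ := by
    refine (abs_sub _ _).trans ?_
    linarith
  nlinarith

end Pool.Agent.Y648.WT
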