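import Pool.Agent.Helper983.WC.Basic

set_option autoImplicit false

/-!
# Square sums of finite-dimensional smooth spaces

Square sums of smooth spaces are smooth. The dual norm of a square sum of finite-dimensional
spaces has the sequential weak-star Kadec-Klee property.
-/

namespace Pool.Agent.Y648.WT

open Filter Topology Pool.Agent.Helper983.WC
open scoped ENNReal

variable {E : ℕ → Type} [∀ k, NormedAddCommGroup (E k)] [∀ k, NormedSpace ℝ (E k)]

theorem toReal_two : (2 : ℝ≥0∞).toReal = 2 := by simp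

theorem norm_sq_compl (x : lp E 2) (s : Finset ℕ) :
    ‖x - ∑ i ∈ s, lp.single 2 i (x i)‖ ^ 2 = ‖x‖ ^ 2 - ∑ i ∈ s, ‖x i‖ ^ 2 := by
  have h := lp.norm_compl_sum_single (p := 2) (by simp) x s
  simp only [toReal_two, Real.rpow_two] at h
  exact h

theorem norm_sq_sum (f : ∀ i, E i) (s : Finset ℕ) :
    ‖∑ i ∈ s, lp.single 2 i (f i)‖ ^ 2 = ∑ i ∈ s, ‖f i‖ ^ 2 := by
  have h := lp.norm_sum_single (p := 2) (by simp) f s
  simp only [toReal_two, Real.rpow_two] at h
  exact h

theorem hasSum_sq (x : lp E 2) : HasSum (fun k => ‖x k‖ ^ 2) (‖x‖ ^ 2) := by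
  have h := lp.hasSum_norm (p := 2) (by simp) x
  simp only [toReal_two, Real.rpow_two] at h
  exact h

theorem norm_sq_add_single (x : lp E 2) (k : ℕ) (v : E k) :
    ‖x + lp.single 2 k v‖ ^ 2 = ‖x‖ ^ 2 - ‖x k‖ ^ 2 + ‖x k + v‖ ^ 2 := by
  have h1 := norm_sq_compl x {k}
  have h2 := norm_sq_compl (x + lp.single 2 k v) {k}
  simp only [Finset.sum_singleton] at h1 h2
  have e1 : (x + lp.single 2 k v) k = x k + v := by
    rw [lp.coeFn_add, Pi.add_apply, lp.single_apply_self]
  have e2 : x + lp.single 2 k v - lp.single 2 k ((x + lp.single 2 k v) k) =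
      x - lp.single 2 k (x k) := by
    rw [e1, lp.single_add]
    abel
  rw [e2, e1] at h2
  linarith

theorem norm_apply_le (x : lp E 2) (k : ℕ) : ‖x k‖ ≤ ‖x‖ := by
  have h1 := norm_sq_compl x {k}
  simp only [Finset.sum_singleton] at h1
  have h2 : ‖x k‖ ^ 2 ≤ ‖x‖ ^ 2 := by nlinarith [sq_nonneg ‖x - lp.single 2 k (x k)‖]
  exact (sq_le_sq₀ (norm_nonneg _) (norm_nonneg _)).1 h2

/-- From `2 a λ ≤ 2 b λ + C λ ^ 2` for all small `λ` to `a ≤ b`. -/
theorem le_of_small {a b C δ : ℝ} (hδ : 0 < δ)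
    (h : ∀ l : ℝ, 0 < l → l ≤ δ → 2 * a * l ≤ 2 * b * l + C * l ^ 2) : a ≤ b := by
  by_contra hcon
  push Not at hcon
  set l := min δ ((a - b) / (|C| + 1)) with hl
  have hC : 0 < |C| + 1 := by positivity
  have hl0 : 0 < l := lt_min hδ (div_pos (by linarith) hC)
  have h1 := h l hl0 (min_le_left _ _)
  have h2 : l * (|C| + 1) ≤ a - b := by
    have := min_le_right δ ((a - b) / (|C| + 1))
    rw [← hl, le_div_iff₀ hC] at this
    exact this
  have h3 : 2 * a ≤ 2 * b + C * l := by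
    have : l * (2 * a) ≤ l * (2 * b + C * l) := by nlinarith
    exact le_of_mul_le_mul_left this hl0
  have h4 : C * l ≤ |C| * l := mul_le_mul_of_nonneg_right (le_abs_self _) hl0.le
  nlinarith

/-- Components of norming functionals, upper bound. -/
theorem norming_le {x : lp E 2} {F : lp E 2 →L[ℝ] ℝ} (hF : IsNorming F x)
    (k : ℕ) (v : E k) : ‖x‖ * F (lp.single 2 k v) ≤ ‖x k‖ * ‖v‖ := by
  rcases eq_or_ne x 0 with rfl | hx
  · simp
  have hpos : 0 < ‖x‖ := norm_pos_iff.2 hx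
  set a := F (lp.single 2 k v) with ha
  refine le_of_small (C := ‖v‖ ^ 2) (δ := ‖x‖ / (|a| + 1)) (by positivity) ?_
  intro l hl hl'
  have h1 : ‖x‖ + l * a ≤ ‖x + lp.single 2 k (l • v)‖ := by
    have := apply_le_norm hF.1.le (x + lp.single 2 k (l • v))
    rw [map_add, hF.2, lp.single_smul, map_smul, smul_eq_mul] at this
    rw [lp.single_smul]
    exact this
  have h2 : 0 ≤ ‖x‖ + l * a := by
    have h3 : l * (|a| + 1) ≤ ‖x‖ := by rwa [le_div_iff₀ (by positivity)] at hl'
    have h4 : -(l * |a|) ≤ l * a := by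
      have := neg_abs_le a
      nlinarith
    nlinarith
  have h5 : (‖x‖ + l * a) ^ 2 ≤ ‖x‖ ^ 2 - ‖x k‖ ^ 2 + ‖x k + l • v‖ ^ 2 := by
    rw [← norm_sq_add_single]
    exact pow_le_pow_left₀ h2 h1 2
  have h6 : ‖x k + l • v‖ ≤ ‖x k‖ + l * ‖v‖ := by
    refine (norm_add_le _ _).trans ?_
    rw [norm_smul, Real.norm_of_nonneg hl.le]
  have h7 : ‖x k + l • v‖ ^ 2 ≤ (‖x k‖ + l * ‖v‖) ^ 2 := pow_le_pow_left₀ (norm_nonneg _) h6 2
  nlinarith [sq_nonneg (l * a)]

/-- Components of norming functionals, exact value. -/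
theorem norming_ge {x : lp E 2} {F : lp E 2 →L[ℝ] ℝ} (hF : IsNorming F x)
    (k : ℕ) : ‖x k‖ ^ 2 ≤ ‖x‖ * F (lp.single 2 k (x k)) := by
  rcases eq_or_ne x 0 with rfl | hx
  · simp
  have hpos : 0 < ‖x‖ := norm_pos_iff.2 hx
  set a := F (lp.single 2 k (x k)) with ha
  refine le_of_small (C := ‖x k‖ ^ 2) (δ := min 1 (‖x‖ / (|a| + 1))) (by positivity) ?_
  intro l hl hl'
  have hl1 : l ≤ 1 := hl'.trans (min_le_left _ _)
  have hl2 := hl'.trans (min_le_right _ _)
  have h1 : ‖x‖ - l * a ≤ ‖x + lp.single 2 k ((-l) • x k)‖ := by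
    have := apply_le_norm hF.1.le (x + lp.single 2 k ((-l) • x k))
    rw [map_add, hF.2, lp.single_smul, map_smul, smul_eq_mul] at this
    rw [lp.single_smul]
    linarith
  have h2 : 0 ≤ ‖x‖ - l * a := by
    have h3 : l * (|a| + 1) ≤ ‖x‖ := by rwa [le_div_iff₀ (by positivity)] at hl2
    have h4 : l * a ≤ l * |a| := by
      have := le_abs_self a
      nlinarith
    nlinarith
  have h5 : (‖x‖ - l * a) ^ 2 ≤ ‖x‖ ^ 2 - ‖x k‖ ^ 2 + ‖x k + (-l) • x k‖ ^ 2 := by
    rw [← norm_sq_add_single]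
    exact pow_le_pow_left₀ h2 h1 2
  have h6 : ‖x k + (-l) • x k‖ = (1 - l) * ‖x k‖ := by
    have : x k + (-l) • x k = (1 - l) • x k := by
      rw [sub_smul, one_smul, neg_smul, sub_eq_add_neg]
    rw [this, norm_smul, Real.norm_of_nonneg (by linarith)]
  rw [h6] at h5
  nlinarith [sq_nonneg (l * a)]

theorem norming_eq {x : lp E 2} {F : lp E 2 →L[ℝ] ℝ} (hF : IsNorming F x)
    (k : ℕ) : ‖x‖ * F (lp.single 2 k (x k)) = ‖x k‖ ^ 2 := by
  refine le_antisymm ?_ (norming_ge hF k)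
  have := norming_le hF k (x k)
  rwa [← sq] at this

theorem abs_norming_le {x : lp E 2} {F : lp E 2 →L[ℝ] ℝ} (hF : IsNorming F x)
    (k : ℕ) (v : E k) : ‖x‖ * |F (lp.single 2 k v)| ≤ ‖x k‖ * ‖v‖ := by
  rcases abs_cases (F (lp.single 2 k v)) with ⟨h, -⟩ | ⟨h, -⟩
  · rw [h]; exact norming_le hF k v
  · rw [h]
    have := norming_le hF k (-v)
    rw [lp.single_neg, map_neg, norm_neg] at this
    exact this

/-- Square sums of smooth spaces are smooth. -/
theorem smooth_l2 (h : ∀ k, Smooth (E k)) : Smooth (lp E 2) := by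
  intro x hx F G hF hG
  have hpos : 0 < ‖x‖ := norm_pos_iff.2 hx
  refine lp.ext_continuousLinearMap (by simp) fun k => ?_
  by_cases h0 : x k = 0
  · ext v
    have key : ∀ {H : lp E 2 →L[ℝ] ℝ}, IsNorming H x → H (lp.single 2 k v) = 0 := by
      intro H hH
      have h1 := abs_norming_le hH k v
      rw [h0, norm_zero, zero_mul] at h1
      have h2 : |H (lp.single 2 k v)| ≤ 0 := by
        by_contra hcon
        push Not at hcon
        have := mul_pos hpos hcon
        linarith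
      exact abs_eq_zero.1 (le_antisymm h2 (abs_nonneg _))
    simp only [ContinuousLinearMap.comp_apply, lp.singleContinuousLinearMap_apply]
    rw [key hF, key hG]
  · have hk : 0 < ‖x k‖ := norm_pos_iff.2 h0
    have key : ∀ {H : lp E 2 →L[ℝ] ℝ}, IsNorming H x →
        IsNorming ((‖x‖ / ‖x k‖) • H.comp (lp.singleContinuousLinearMap ℝ E 2 k)) (x k) := by
      intro H hH
      refine isNorming_of_le h0 ?_ ?_
      · refine ContinuousLinearMap.opNorm_le_bound _ zero_le_one fun v => ?_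
        have h1 := abs_norming_le hH k v
        rw [ContinuousLinearMap.smul_apply, ContinuousLinearMap.comp_apply,
          lp.singleContinuousLinearMap_apply, smul_eq_mul, Real.norm_eq_abs, abs_mul,
          abs_of_pos (div_pos hpos hk), one_mul, div_mul_eq_mul_div, div_le_iff₀ hk, mul_comm ‖v‖]
        exact h1
      · have h1 := norming_eq hH k
        rw [ContinuousLinearMap.smul_apply, ContinuousLinearMap.comp_apply,
          lp.singleContinuousLinearMap_apply, smul_eq_mul, div_mul_eq_mul_div, h1, sq,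
          mul_div_assoc, div_self hk.ne', mul_one]
    have h1 := h k (x k) h0 _ _ (key hF) (key hG)
    have hne : ‖x‖ / ‖x k‖ ≠ 0 := (div_pos hpos hk).ne'
    exact smul_right_injective _ hne h1

/-! ### Projections -/

/-- The projection to the first `K` components. -/
noncomputable def proj (E : ℕ → Type) [∀ k, NormedAddCommGroup (E k)] [∀ k, NormedSpace ℝ (E k)]
    (K : ℕ) : lp E 2 →L[ℝ] lp E 2 :=
  ∑ k ∈ Finset.range K, (lp.singleContinuousLinearMap ℝ E 2 k).comp (lp.evalCLM ℝ E 2 k)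

end Pool.Agent.Y648.WT
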