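import Pool.Agent.Y648.WT.KK

set_option autoImplicit false

/-!
# The spaces `ℓ_q^n`, and the square sum `X0` of the spaces `ℓ_q^n` with `q = 1 + 1 / n`
-/

namespace Pool.Agent.Y648.WT

open Filter Topology Pool.Agent.Helper983.WC
open scoped ENNReal

/-! ### Smoothness from differentiability -/

section Diff

variable {X : Type*} [NormedAddCommGroup X] [NormedSpace ℝ X]

theorem norming_eq_deriv {x v : X} {F : X →L[ℝ] ℝ} (hF : IsNorming F x) {d : ℝ}
    (hd : HasDerivAt (fun t : ℝ => ‖x + t • v‖) d 0) : F v = d := by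
  have h1 : HasDerivAt (fun t : ℝ => ‖x + t • v‖ - (‖x‖ + t * F v)) (d - F v) 0 := by
    refine hd.sub ?_
    have := ((hasDerivAt_id (0 : ℝ)).mul_const (F v)).const_add ‖x‖
    simpa using this
  have h2 : IsLocalMin (fun t : ℝ => ‖x + t • v‖ - (‖x‖ + t * F v)) 0 := by
    refine Filter.Eventually.of_forall fun t => ?_
    have := apply_le_norm hF.1.le (x + t • v)
    rw [map_add, hF.2, map_smul, smul_eq_mul] at this
    simp only [zero_smul, add_zero, zero_mul, sub_self]
    linarith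
  have := h2.hasDerivAt_eq_zero h1
  linarith

end Diff

section PiLp

variable {p : ℝ≥0∞} [Fact (1 ≤ p)] {n : ℕ}

theorem norm_rpow_eq (hp : 1 < p.toReal) (u : PiLp p (fun _ : Fin n => ℝ)) :
    ‖u‖ ^ p.toReal = ∑ i, |u i| ^ p.toReal := by
  have h0 : 0 < p.toReal := by linarith
  rw [PiLp.norm_eq_sum h0, ← Real.rpow_mul (Finset.sum_nonneg fun i _ => by positivity),
    one_div, inv_mul_cancel₀ h0.ne', Real.rpow_one]
  rfl

theorem norm_eq_rpow (hp : 1 < p.toReal) (u : PiLp p (fun _ : Fin n => ℝ)) :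
    ‖u‖ = (∑ i, |u i| ^ p.toReal) ^ (1 / p.toReal) := by
  have h0 : 0 < p.toReal := by linarith
  rw [PiLp.norm_eq_sum h0]
  rfl

theorem exists_hasDerivAt (hp : 1 < p.toReal) {u : PiLp p (fun _ : Fin n => ℝ)} (hu : u ≠ 0)
    (i : Fin n) : ∃ d, HasDerivAt (fun t : ℝ => ‖u + t • PiLp.single p i (1 : ℝ)‖) d 0 := by
  have h0 : 0 < p.toReal := by linarith
  have hpos : 0 < ‖u‖ := norm_pos_iff.2 hu
  have h1 : ∀ j : Fin n, ∃ d, HasDerivAt (fun t : ℝ => |u j + t * (if j = i then 1 else 0)| ^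
      p.toReal) d 0 := by
    intro j
    have e1 : HasDerivAt (fun t : ℝ => u j + t * (if j = i then 1 else 0))
        (1 * (if j = i then 1 else 0)) 0 :=
      ((hasDerivAt_id (0 : ℝ)).mul_const (if j = i then (1 : ℝ) else 0)).const_add (u j)
    exact ⟨_, (hasDerivAt_abs_rpow _ hp).comp (0 : ℝ) e1⟩
  choose d hd using h1
  have h2 : HasDerivAt (fun t : ℝ => ∑ j, |u j + t * (if j = i then 1 else 0)| ^ p.toReal)
      (∑ j, d j) 0 := HasDerivAt.fun_sum fun j _ => hd j
  have h3 : (∑ j, |u j + (0 : ℝ) * (if j = i then 1 else 0)| ^ p.toReal) ≠ 0 := by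
    simp only [zero_mul, add_zero]
    rw [← norm_rpow_eq hp]
    exact (Real.rpow_pos_of_pos hpos _).ne'
  have h4 := h2.rpow_const (p := 1 / p.toReal) (Or.inl h3)
  refine ⟨_, h4.congr_of_eventuallyEq (Filter.Eventually.of_forall fun t => ?_)⟩
  beta_reduce
  rw [norm_eq_rpow hp]
  congr 1
  refine Finset.sum_congr rfl fun j _ => ?_
  congr 2
  rw [PiLp.add_apply, PiLp.smul_apply, smul_eq_mul]
  congr 2
  by_cases hji : j = i
  · subst hji; simp
  · simp [hji]

theorem smooth_piLp (hp : 1 < p.toReal) : Smooth (PiLp p (fun _ : Fin n => ℝ)) := by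
  intro u hu F G hF hG
  have h1 : (F : PiLp p (fun _ : Fin n => ℝ) →ₗ[ℝ] ℝ) = G := by
    refine (PiLp.basisFun p ℝ (Fin n)).ext fun i => ?_
    obtain ⟨d, hd⟩ := exists_hasDerivAt hp hu i
    rw [PiLp.basisFun_apply]
    exact (norming_eq_deriv hF hd).trans (norming_eq_deriv hG hd).symm
  ext v
  exact DFunLike.congr_fun h1 v

/-- The drop of the norm if a coordinate is set to zero. -/
theorem drop_bound (hp : 1 < p.toReal) (hp2 : p.toReal ≤ 2) {u : PiLp p (fun _ : Fin n => ℝ)}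
    {i : Fin n} (hb : 0 < u i) :
    (u i / ‖u‖) ^ (p.toReal - 1) * u i ≤ 2 * (‖u‖ - ‖u - u i • PiLp.single p i (1 : ℝ)‖) := by
  set q := p.toReal with hq
  have hu : u ≠ 0 := by
    rintro rfl
    simp at hb
  have hN : 0 < ‖u‖ := norm_pos_iff.2 hu
  set N := ‖u‖ with hNdef
  set u' := u - u i • PiLp.single p i (1 : ℝ) with hu'
  set N' := ‖u'‖ with hN'def
  have hN'0 : 0 ≤ N' := norm_nonneg _
  have hu'j : ∀ j, u' j = if j = i then 0 else u j := by
    intro j
    rw [hu', PiLp.sub_apply, PiLp.smul_apply, smul_eq_mul]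
    by_cases hji : j = i
    · subst hji; simp
    · simp [hji]
  have e1 : N ^ q = N' ^ q + (u i) ^ q := by
    rw [hNdef, hN'def, norm_rpow_eq hp, norm_rpow_eq hp, ← hq,
      ← Finset.sum_erase_add _ _ (Finset.mem_univ i),
      ← Finset.sum_erase_add _ (fun j => |u' j| ^ q) (Finset.mem_univ i)]
    have h1 : |u' i| ^ q = 0 := by
      rw [hu'j i, if_pos rfl, abs_zero, Real.zero_rpow (by linarith)]
    rw [h1, add_zero, abs_of_pos hb]
    congr 1
    refine Finset.sum_congr rfl fun j hj => ?_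
    rw [hu'j j, if_neg (Finset.ne_of_mem_erase hj)]
  set ρ := N' / N with hρ
  set β := u i / N with hβ
  have hβ0 : 0 < β := div_pos hb hN
  have hρ0 : 0 ≤ ρ := div_nonneg hN'0 hN.le
  have e2 : ρ ^ q + β ^ q = 1 := by
    rw [hρ, hβ, Real.div_rpow hN'0 hN.le, Real.div_rpow hb.le hN.le, ← add_div, ← e1,
      div_self (Real.rpow_pos_of_pos hN _).ne']
  have e3 : 1 + q * (ρ - 1) ≤ ρ ^ q := by
    have := one_add_mul_self_le_rpow_one_add (s := ρ - 1) (p := q) (by linarith) hp.le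
    rwa [add_sub_cancel] at this
  have hρ1 : ρ ≤ 1 := by
    have h1 : ρ ^ q ≤ 1 := by
      have := Real.rpow_nonneg hβ0.le q
      linarith
    by_contra hcon
    push Not at hcon
    have := Real.one_lt_rpow hcon (show 0 < q by linarith)
    linarith
  have e4 : β ^ q ≤ 2 * (1 - ρ) := by nlinarith
  have e5 : β ^ (q - 1) * β = β ^ q := by
    rw [← Real.rpow_add_one hβ0.ne', sub_add_cancel]
  have e6 : u i = β * N := by rw [hβ, div_mul_cancel₀ _ hN.ne']
  have e7 : N - N' = (1 - ρ) * N := by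
    rw [hρ, sub_mul, one_mul, div_mul_cancel₀ _ hN.ne']
  rw [e7]
  have e8 : β ^ (q - 1) * u i = β ^ q * N := by rw [e6, ← e5]; ring
  rw [e8]
  nlinarith

/-- Coordinates are at most the norm. -/
theorem abs_coord_le (u : PiLp p (fun _ : Fin n => ℝ)) (i : Fin n) : |u i| ≤ ‖u‖ :=
  PiLp.norm_apply_le u i

open Classical in
/-- Set the coordinates in `s` to zero. -/
noncomputable def cutE (s : Set (Fin n)) (u : PiLp p (fun _ : Fin n => ℝ)) :
    PiLp p (fun _ : Fin n => ℝ) := WithLp.toLp p fun i => if i ∈ s then 0 else u i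

theorem cutE_apply_mem {s : Set (Fin n)} {u : PiLp p (fun _ : Fin n => ℝ)} {i : Fin n}
    (h : i ∈ s) : cutE s u i = 0 := by
  simp [cutE, h]

theorem cutE_apply_not_mem {s : Set (Fin n)} {u : PiLp p (fun _ : Fin n => ℝ)} {i : Fin n}
    (h : i ∉ s) : cutE s u i = u i := by
  simp [cutE, h]

theorem cutE_add (s : Set (Fin n)) (u v : PiLp p (fun _ : Fin n => ℝ)) :
    cutE s (u + v) = cutE s u + cutE s v := by
  ext i
  by_cases h : i ∈ s
  · rw [PiLp.add_apply, cutE_apply_mem h, cutE_apply_mem h, cutE_apply_mem h, add_zero]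
  · rw [PiLp.add_apply, cutE_apply_not_mem h, cutE_apply_not_mem h, cutE_apply_not_mem h,
      PiLp.add_apply]

theorem cutE_smul (s : Set (Fin n)) (c : ℝ) (u : PiLp p (fun _ : Fin n => ℝ)) :
    cutE s (c • u) = c • cutE s u := by
  ext i
  by_cases h : i ∈ s
  · rw [PiLp.smul_apply, cutE_apply_mem h, cutE_apply_mem h, smul_zero]
  · rw [PiLp.smul_apply, cutE_apply_not_mem h, cutE_apply_not_mem h, PiLp.smul_apply]

theorem norm_cutE_le (hp : 1 < p.toReal) (s : Set (Fin n)) (u : PiLp p (fun _ : Fin n => ℝ)) :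
    ‖cutE s u‖ ≤ ‖u‖ := by
  rw [norm_eq_rpow hp, norm_eq_rpow hp]
  have h0 : 0 < p.toReal := by linarith
  refine Real.rpow_le_rpow (Finset.sum_nonneg fun i _ => by positivity) ?_ (by positivity)
  refine Finset.sum_le_sum fun i _ => ?_
  by_cases h : i ∈ s
  · rw [cutE_apply_mem h, abs_zero, Real.zero_rpow h0.ne']
    positivity
  · rw [cutE_apply_not_mem h]

end PiLp

end Pool.Agent.Y648.WT
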