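import Pool.Agent.Y648.WT.Lq
import Pool.Agent.Y648.WT.Seq

set_option autoImplicit false

/-!
# The space `X0` and runs of the algorithm along coordinates
-/

namespace Pool.Agent.Y648.WT

open Filter Topology Pool.Agent.Helper983.WC
open scoped ENNReal

/-- The exponent `1 + 1 / (k + 1)`. -/
noncomputable def qr (k : ℕ) : ℝ := 1 + 1 / ((k : ℝ) + 1)

/-- The same exponent, in `[0, ∞]`. -/
noncomputable def qe (k : ℕ) : ℝ≥0∞ := ENNReal.ofReal (qr k)

theorem one_lt_qr (k : ℕ) : 1 < qr k := by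
  have : 0 < 1 / ((k : ℝ) + 1) := by positivity
  rw [qr]; linarith

theorem qr_le_two (k : ℕ) : qr k ≤ 2 := by
  have : 1 / ((k : ℝ) + 1) ≤ 1 := by
    rw [div_le_one (by positivity)]
    have : (0 : ℝ) ≤ k := k.cast_nonneg
    linarith
  rw [qr]; linarith

theorem toReal_qe (k : ℕ) : (qe k).toReal = qr k :=
  ENNReal.toReal_ofReal (by have := one_lt_qr k; linarith)

instance (k : ℕ) : Fact (1 ≤ qe k) := ⟨by
  rw [qe, ← ENNReal.ofReal_one]
  exact ENNReal.ofReal_le_ofReal (one_lt_qr k).le⟩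

/-- The space `ℝ ^ (k + 1)` with the `ℓ_q` norm, `q = 1 + 1 / (k + 1)`. -/
abbrev E (k : ℕ) : Type := PiLp (qe k) (fun _ : Fin (k + 1) => ℝ)

/-- The square sum of the spaces `E k`. -/
abbrev X0 : Type := lp E 2

theorem one_lt_toReal (k : ℕ) : 1 < (qe k).toReal := by
  rw [toReal_qe]; exact one_lt_qr k

theorem smooth_X0 : Smooth X0 := smooth_l2 fun k => smooth_piLp (one_lt_toReal k)

theorem dualKK_X0 : DualKK X0 := dualKK_l2

/-- The unit vectors. -/
noncomputable def bs (k : ℕ) (i : Fin (k + 1)) : X0 := lp.single 2 k (PiLp.single (qe k) i 1)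

/-- The dictionary of the unit vectors. -/
def D0 : Set X0 := {x | ∃ (k : ℕ) (i : Fin (k + 1)), x = bs k i}

theorem norm_bs (k : ℕ) (i : Fin (k + 1)) : ‖bs k i‖ = 1 := by
  rw [bs, lp.norm_single (by norm_num), PiLp.norm_single, norm_one]

theorem single_mem_span (k : ℕ) (u : E k) : lp.single 2 k u ∈ Submodule.span ℝ D0 := by
  have h : u = ∑ i, u i • PiLp.single (qe k) i (1 : ℝ) := by
    conv_lhs => rw [← (PiLp.basisFun (qe k) ℝ (Fin (k + 1))).sum_repr u]
    simp only [PiLp.basisFun_repr, PiLp.basisFun_apply]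
  have h2 : lp.single 2 k u = ∑ i, u i • bs k i := by
    conv_lhs => rw [h]
    rw [← lp.lsingle_apply (𝕜 := ℝ), map_sum]
    refine Finset.sum_congr rfl fun i _ => ?_
    rw [map_smul]
    rfl
  rw [h2]
  exact Submodule.sum_mem _ fun i _ => Submodule.smul_mem _ _ (Submodule.subset_span ⟨k, i, rfl⟩)

theorem isDictionary_D0 : IsDictionary D0 := by
  refine ⟨?_, ?_⟩
  · rintro _ ⟨k, i, rfl⟩
    exact norm_bs k i
  · intro x
    refine mem_closure_of_tendsto (tendsto_proj x) (Filter.Eventually.of_forall fun K => ?_)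
    rw [proj_apply]
    exact Submodule.sum_mem _ fun k _ => single_mem_span k _

/-- Set the coordinates in `S` to zero. -/
noncomputable def cut (S : ∀ k : ℕ, Set (Fin (k + 1))) (x : X0) : X0 :=
  ⟨fun k => cutE (S k) (x k), by
    refine memℓp_gen ?_
    simp only [toReal_two, Real.rpow_two]
    refine Summable.of_nonneg_of_le (fun k => by positivity) (fun k => ?_) (hasSum_sq x).summable
    exact pow_le_pow_left₀ (norm_nonneg _) (norm_cutE_le (one_lt_toReal k) _ _) 2⟩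

theorem cut_apply (S : ∀ k : ℕ, Set (Fin (k + 1))) (x : X0) (k : ℕ) :
    cut S x k = cutE (S k) (x k) := rfl

theorem norm_cut_le (S : ∀ k : ℕ, Set (Fin (k + 1))) (x : X0) : ‖cut S x‖ ≤ ‖x‖ := by
  refine (sq_le_sq₀ (norm_nonneg _) (norm_nonneg _)).1 ?_
  refine hasSum_le (fun k => ?_) (hasSum_sq (cut S x)) (hasSum_sq x)
  exact pow_le_pow_left₀ (norm_nonneg _) (norm_cutE_le (one_lt_toReal k) _ _) 2

theorem cut_add (S : ∀ k : ℕ, Set (Fin (k + 1))) (x y : X0) :
    cut S (x + y) = cut S x + cut S y := by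
  ext k : 2
  rw [lp.coeFn_add, Pi.add_apply, cut_apply, cut_apply, cut_apply, lp.coeFn_add, Pi.add_apply,
    cutE_add]

theorem cut_smul (S : ∀ k : ℕ, Set (Fin (k + 1))) (c : ℝ) (x : X0) :
    cut S (c • x) = c • cut S x := by
  ext k : 2
  rw [lp.coeFn_smul, Pi.smul_apply, cut_apply, cut_apply, lp.coeFn_smul, Pi.smul_apply,
    cutE_smul]

/-- `cut` as a linear map. -/
noncomputable def cutL (S : ∀ k : ℕ, Set (Fin (k + 1))) : X0 →ₗ[ℝ] X0 where
  toFun := cut S
  map_add' := cut_add S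
  map_smul' := cut_smul S

theorem cut_bs {S : ∀ k : ℕ, Set (Fin (k + 1))} {k : ℕ} {i : Fin (k + 1)} (h : i ∈ S k) :
    cut S (bs k i) = 0 := by
  ext l j
  rw [cut_apply]
  by_cases hj : j ∈ S l
  · rw [cutE_apply_mem hj]; rfl
  · rw [cutE_apply_not_mem hj, bs]
    by_cases hkl : l = k
    · subst hkl
      rw [lp.single_apply_self]
      have hne : j ≠ i := by rintro rfl; exact hj h
      simp [hne]
    · rw [lp.single_apply_ne _ _ _ hkl]
      rfl

/-- The coordinates chosen in the first `m` steps. -/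
def chosen (κ : ℕ → ℕ) (ι : ∀ l, Fin (κ l + 1)) (m : ℕ) (k : ℕ) : Set (Fin (k + 1)) :=
  {i | ∃ l < m, κ l = k ∧ (ι l : ℕ) = i}

theorem cut_zero (κ : ℕ → ℕ) (ι : ∀ l, Fin (κ l + 1)) (f : X0) : cut (chosen κ ι 0) f = f := by
  ext k i
  rw [cut_apply, cutE_apply_not_mem]
  rintro ⟨l, hl, -⟩
  exact absurd hl (Nat.not_lt_zero l)

theorem cut_succ (κ : ℕ → ℕ) (ι : ∀ l, Fin (κ l + 1)) (f : X0) (m : ℕ) :
    cut (chosen κ ι (m + 1)) f = cut (chosen κ ι m) f -
      (cut (chosen κ ι m) f (κ m) (ι m)) • bs (κ m) (ι m) := by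
  ext k i
  rw [lp.coeFn_sub, Pi.sub_apply, PiLp.sub_apply, lp.coeFn_smul, Pi.smul_apply, PiLp.smul_apply,
    smul_eq_mul, bs]
  by_cases hk : k = κ m
  · subst hk
    rw [lp.single_apply_self]
    by_cases hi : i = ι m
    · subst hi
      have hmem : ι m ∈ chosen κ ι (m + 1) (κ m) := ⟨m, Nat.lt_succ_self m, rfl, rfl⟩
      rw [cut_apply, cutE_apply_mem hmem]
      simp
    · have h1 : (i ∈ chosen κ ι (m + 1) (κ m)) ↔ (i ∈ chosen κ ι m (κ m)) := by
        constructor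
        · rintro ⟨l, hl, h2, h3⟩
          rcases Nat.lt_succ_iff_lt_or_eq.1 hl with h | rfl
          · exact ⟨l, h, h2, h3⟩
          · exact absurd (Fin.ext h3.symm) hi
        · rintro ⟨l, hl, h2, h3⟩
          exact ⟨l, hl.trans (Nat.lt_succ_self m), h2, h3⟩
      have h2 : (PiLp.single (qe (κ m)) (ι m) (1 : ℝ) : E (κ m)) i = 0 := by simp [hi]
      rw [h2, mul_zero, sub_zero, cut_apply, cut_apply]
      by_cases h3 : i ∈ chosen κ ι m (κ m)
      · rw [cutE_apply_mem h3, cutE_apply_mem (h1.2 h3)]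
      · rw [cutE_apply_not_mem h3, cutE_apply_not_mem (fun h => h3 (h1.1 h))]
  · rw [lp.single_apply_ne _ _ _ hk]
    have h1 : (i ∈ chosen κ ι (m + 1) k) ↔ (i ∈ chosen κ ι m k) := by
      constructor
      · rintro ⟨l, hl, h2, h3⟩
        rcases Nat.lt_succ_iff_lt_or_eq.1 hl with h | rfl
        · exact ⟨l, h, h2, h3⟩
        · exact absurd h2.symm hk
      · rintro ⟨l, hl, h2, h3⟩
        exact ⟨l, hl.trans (Nat.lt_succ_self m), h2, h3⟩
    have h2 : (0 : E k) i = 0 := rfl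
    rw [h2, mul_zero, sub_zero, cut_apply, cut_apply]
    by_cases h3 : i ∈ chosen κ ι m k
    · rw [cutE_apply_mem h3, cutE_apply_mem (h1.2 h3)]
    · rw [cutE_apply_not_mem h3, cutE_apply_not_mem (fun h => h3 (h1.1 h))]

/-- Runs along coordinates. -/
theorem exists_run (τ : ℕ → ℝ) (κ : ℕ → ℕ) (ι : ∀ l, Fin (κ l + 1)) (f : X0)
    (hne : ∀ m, cut (chosen κ ι m) f ≠ 0)
    (hgr : ∀ (m : ℕ) (F : X0 →L[ℝ] ℝ), IsNorming F (cut (chosen κ ι m) f) →
      ∀ g ∈ D0, τ m * |F g| ≤ |F (bs (κ m) (ι m))|) :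
    ∃ (F : ℕ → X0 →L[ℝ] ℝ) (φ : ℕ → X0),
      IsRunSeq τ D0 f (fun m => cut (chosen κ ι m) f) F φ := by
  have hex : ∀ m, ∃ F : X0 →L[ℝ] ℝ, IsNorming F (cut (chosen κ ι m) f) := by
    intro m
    obtain ⟨F, h1, h2⟩ := exists_dual_vector ℝ _ (norm_ne_zero_iff.2 (hne m))
    exact ⟨F, h1, by simpa using h2⟩
  choose F hF using hex
  have key : ∀ m, f - cut (chosen κ ι (m + 1)) f ∈
      Submodule.span ℝ ((fun m => bs (κ m) (ι m)) '' Set.Iic m) := by
    intro m
    induction m with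
    | zero =>
      rw [cut_succ, cut_zero, sub_sub_cancel]
      exact Submodule.smul_mem _ _ (Submodule.subset_span ⟨0, Set.mem_Iic.2 le_rfl, rfl⟩)
    | succ m ih =>
      have h2 : Submodule.span ℝ ((fun m => bs (κ m) (ι m)) '' Set.Iic m) ≤
          Submodule.span ℝ ((fun m => bs (κ m) (ι m)) '' Set.Iic (m + 1)) :=
        Submodule.span_mono (Set.image_mono (Set.Iic_subset_Iic.2 (Nat.le_succ m)))
      have h3 := Submodule.add_mem _ (h2 ih) (Submodule.smul_mem _
        (cut (chosen κ ι (m + 1)) f (κ (m + 1)) (ι (m + 1)))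
        (Submodule.subset_span (R := ℝ) (⟨m + 1, Set.mem_Iic.2 le_rfl, rfl⟩ :
          bs (κ (m + 1)) (ι (m + 1)) ∈ (fun m => bs (κ m) (ι m)) '' Set.Iic (m + 1))))
      rw [cut_succ κ ι f (m + 1)]
      convert h3 using 1
      abel
  refine ⟨F, fun m => bs (κ m) (ι m), ?_⟩
  constructor
  · exact cut_zero κ ι f
  · intro m hm
    exact absurd hm (hne m)
  · intro m _
    exact hF m
  · intro m _
    exact ⟨_, _, rfl⟩
  · intro m _ g hg
    exact hgr m _ (hF m) g hg
  · intro m _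
    refine ⟨f - cut (chosen κ ι (m + 1)) f, ⟨key m, ?_⟩, by rw [sub_sub_cancel]⟩
    intro G hG
    rw [sub_sub_cancel]
    have h1 : cutL (chosen κ ι (m + 1)) G = 0 := by
      have h2 : Submodule.span ℝ ((fun m => bs (κ m) (ι m)) '' Set.Iic m) ≤
          LinearMap.ker (cutL (chosen κ ι (m + 1))) := by
        rw [Submodule.span_le]
        rintro _ ⟨l, hl, rfl⟩
        exact cut_bs ⟨l, Nat.lt_succ_of_le hl, rfl, rfl⟩
      exact h2 hG
    have h2 : cut (chosen κ ι (m + 1)) f = cut (chosen κ ι (m + 1)) (f - G) := by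
      have h3 : cutL (chosen κ ι (m + 1)) (f - G) = cutL (chosen κ ι (m + 1)) f -
          cutL (chosen κ ι (m + 1)) G := map_sub _ _ _
      rw [h1, sub_zero] at h3
      exact h3.symm
    rw [h2]
    exact norm_cut_le _ _

end Pool.Agent.Y648.WT
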