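import Pool.Agent.Y648.WT.Div

set_option autoImplicit false

/-!
# The space `X0` is separable; the convergence criterion in `X0`
-/

namespace Pool.Agent.Y648.WT

open Filter Topology Pool.Agent.Helper983.WC

theorem countable_D0 : D0.Countable := by
  have h : D0 = Set.range (fun p : (Σ k : ℕ, Fin (k + 1)) => bs p.1 p.2) := by
    ext x
    constructor
    · rintro ⟨k, i, rfl⟩
      exact ⟨⟨k, i⟩, rfl⟩
    · rintro ⟨⟨k, i⟩, rfl⟩
      exact ⟨k, i, rfl⟩
  rw [h]
  exact Set.countable_range _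

theorem separable_X0 : TopologicalSpace.SeparableSpace X0 := by
  have h1 : TopologicalSpace.IsSeparable (Submodule.span ℝ D0 : Set X0) :=
    countable_D0.isSeparable.span
  have h2 : TopologicalSpace.IsSeparable (Set.univ : Set X0) := by
    have := h1.closure
    rwa [isDictionary_D0.2.closure_eq] at this
  exact TopologicalSpace.isSeparable_univ_iff.1 h2

theorem conv_X0_iff {τ : ℕ → ℝ} (h0 : ∀ m, 0 ≤ τ m) (h1 : ∀ m, τ m ≤ 1) :
    Conv τ X0 ↔ ¬ Tendsto τ atTop (𝓝 0) := by
  constructor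
  · intro h hτ
    exact diverges h1 hτ h
  · intro hτ
    exact (conv_iff h0 h1 hτ).2 ⟨smooth_X0, dualKK_X0⟩

end Pool.Agent.Y648.WT
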